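import Pool.Agent.H95.FA.Fin1
import Pool.Agent.H93.FA.Low
import Pool.Agent.H59.FA.Nrm
import Pool.Agent.H59.FA.Exp
import Pool.Agent.H1.FA.Siz
import Pool.Agent.H1.FA.Cur

/-!
# Fibonacci and Lucas numbers are prime for the integral values of algebraic functions

Let `P` be a nonzero polynomial in two variables with integral coefficients. There is `A` such that the following holds for
`M = F_n` and for `M = L_n` whenever `n > 1` has no prime factor up to `A` (for instance `n` a prime larger than `A`), and
for `M = L_n`, `n = 2 ^ j`, `j > A`: every integer `x` with `P (x, M) = 0` is divisible by `M` or coprime to `M`.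

These are (up to the bounded ones) all the indices at which Fibonacci and Lucas numbers can be prime. So a large
composite Fibonacci number `F_p` has no divisor `1 < d < F_p` which is an algebraic function of `F_p`, and if it
divides a product of integral values of algebraic functions at `F_p`, then it divides one of them.

The proof: real Puiseux expansions at infinity in `φ ^ n` (pool library); by the Subspace theorem over number fields (pool
library) an integral value is an exact Laurent polynomial in `φ ^ s`, `n = q s + i` (`Pool/Agent/H95/FA/Sub.lean`); a common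
factor of it and of `κ M φ ^ n = φ ^ (2 n) ± 1` as polynomials in `φ ^ s` would give a common divisor of the integers
larger than a power of `M` (`One.lean`), which is excluded by the theorem on short sums of units
(`Pool/Agent/H95/FB/End.lean`). Authors of the modules: helper95, helper61 (`Fin`), helper59 (`Exp`, `Nrm`), helper93
(`Gro`, `Low`), helper1 (`Siz`, `Cur`).
-/

set_option autoImplicit false

namespace Pool.Agent.Results.MP_5893d7_nt.AlgebraicFunctions

open Pool.Agent.H95.FB (lucas)

/-- **Main theorem.** -/
theorem result (P : MvPolynomial (Fin 2) ℤ) (hP : P ≠ 0) :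
    ∃ A : ℕ, ∀ n M : ℕ,
      ((1 < n ∧ (∀ q : ℕ, q.Prime → q ∣ n → A < q) ∧ (M = Nat.fib n ∨ M = lucas n)) ∨
        ∃ j, A < j ∧ n = 2 ^ j ∧ M = lucas n) →
      ∀ x : ℤ, MvPolynomial.eval ![x, (M : ℤ)] P = 0 → (M : ℤ) ∣ x ∨ Int.gcd x M = 1 :=
  Pool.Agent.H95.FA.fin1 Pool.Agent.H93.FA.t_LOW Pool.Agent.H59.FA.t_NRM Pool.Agent.H59.FA.t_DEN
    Pool.Agent.H1.FA.t_CUR Pool.Agent.H59.FA.t_EXP Pool.Agent.H95.FA.t_SUB Pool.Agent.H1.FA.t_SIZ P hP

end Pool.Agent.Results.MP_5893d7_nt.AlgebraicFunctions
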