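import Pool.Agent.H41.FD.A
import Pool.Agent.H41.FD.B

/-!
# Fibonacci primes in random models with dependence between the indices

`E k` is the event that the Fibonacci number of index the `k`-th prime is prime, of probability of the
order `1 / k`; the events up to `n` are independent of those after `n + d n`.
-/

set_option autoImplicit false

namespace Pool.Agent.Results.MP_5893d7_nt.DependentIndices

open MeasureTheory Filter Topology ProbabilityTheory
open Pool.Agent.H41.LD (RangeDep)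

/-- The sharp dichotomy. -/
theorem result (d : ℕ → ℕ) (hd : Monotone d) :
    ((∀ (Ω : Type) [MeasurableSpace Ω] (P : Measure Ω) [IsProbabilityMeasure P] (E : ℕ → Set Ω),
      RangeDep P E d → (∃ c : ℝ, 0 < c ∧ ∀ᶠ k : ℕ in atTop, c / k ≤ P.real (E k)) →
      ∀ᵐ ω ∂P, {k | ω ∈ E k}.Infinite) ↔
        ¬ Summable fun k : ℕ => 1 / ((k : ℝ) * (1 + d k))) ∧
    ((Summable fun k : ℕ => 1 / ((k : ℝ) * (1 + d k))) →
      ∃ (Ω : Type) (_ : MeasurableSpace Ω) (P : Measure Ω) (_ : IsProbabilityMeasure P)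
        (E : ℕ → Set Ω), RangeDep P E d ∧ (∀ k : ℕ, P.real (E k) = 1 / ((k : ℝ) + 1)) ∧
        ∀ᵐ ω ∂P, {k | ω ∈ E k}.Finite) := by
  refine ⟨⟨fun h hs => ?_, fun h Ω _ P _ E hR hP => ?_⟩, Pool.Agent.H41.FD.b d hd⟩
  · obtain ⟨Ω, _, P, _, E, hR, hP, hfin⟩ := Pool.Agent.H41.FD.b d hd hs
    have hinf := h Ω P E hR ⟨1 / 2, by norm_num, by
      filter_upwards [eventually_ge_atTop 1] with k hk
      rw [hP k, div_div]
      have hk' : (1 : ℝ) ≤ k := by exact_mod_cast hk
      apply one_div_le_one_div_of_le (by positivity)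
      linarith⟩
    obtain ⟨ω, h1, h2⟩ := (hinf.and hfin).exists
    exact h1 h2
  · obtain ⟨c, hc, hP⟩ := hP
    exact Pool.Agent.H41.FD.a d hd h Ω P E c hc hR hP

end Pool.Agent.Results.MP_5893d7_nt.DependentIndices
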