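import Mathlib
import Pool.Agent.H95.FB.End

/-!
# Fibonacci and Lucas numbers behave as primes towards integers with few digits

Fix nonzero algebraic numbers `g j`, bounds `k` and `B`, and `ε > 0`.  There is `P` such that the
following holds for `M = F_n` and `M = L_n` when `n > 1` has no prime factor up to `P` (for instance
`n` a prime larger than `P`), and for `M = L_n` when `n = 2 ^ j` with `j > P`.  Let `𝒮` be the set of
all integers which are sums of at most `k` products of powers of the `g j`, with exponents of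
absolute value at most `B n`.  Then `M ∣ z` or `gcd (z, M) < M ^ ε` for all `z ∈ 𝒮`, a product of at
most `1 / ε` members of `𝒮` is divisible by `M` only if one of them is, and every divisor of `M` in
`𝒮` is smaller than `M ^ ε` or equal to `M` in absolute value.
-/

set_option autoImplicit false

namespace Pool.Agent.Results.MP_5893d7_nt.UnitSumEuclid

open Pool.Agent.H95.FB

theorem result (r k B : ℕ) (g : Fin r → ℂ) (hg0 : ∀ j, g j ≠ 0) (hg : ∀ j, IsAlgebraic ℚ (g j))
    (ε : ℝ) (hε : 0 < ε) :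
    ∃ P : ℕ, ∀ n M : ℕ, Adm P n M → 1 < M ∧
      (∀ z ∈ Sums g k (B * n), (M : ℤ) ∣ z ∨ (Int.gcd z M : ℝ) < (M : ℝ) ^ ε) ∧
      (∀ (ι : Type) (s : Finset ι) (z : ι → ℤ), (∀ i ∈ s, z i ∈ Sums g k (B * n)) →
        ε * s.card ≤ 1 → (M : ℤ) ∣ ∏ i ∈ s, z i → ∃ i ∈ s, (M : ℤ) ∣ z i) ∧
      (∀ z ∈ Sums g k (B * n), z ∣ M → (|z| : ℝ) < (M : ℝ) ^ ε ∨ |z| = M) := by
  obtain ⟨P, hP⟩ := any_k k g hg0 hg B ε hε
  refine ⟨max P 3, fun n M hadm => ?_⟩
  have h1 : 1 < M := hadm.one_lt (le_max_right _ _)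
  have h2 := hP n M (hadm.mono (le_max_left _ _))
  refine ⟨h1, h2, fun ι s z hz hs hd => euclid h1 s z hs (fun i hi => h2 _ (hz i hi)) hd, ?_⟩
  intro z hz hzM
  rcases h2 z hz with h3 | h3
  · right
    rw [Int.abs_eq_natAbs]
    exact_mod_cast Nat.dvd_antisymm (Int.natAbs_dvd_natAbs.2 hzM)
      (by simpa using Int.natAbs_dvd_natAbs.2 h3)
  · left
    have h4 : Int.gcd z M = z.natAbs := Int.gcd_eq_natAbs_left hzM
    rw [h4] at h3
    have h5 : (|z| : ℝ) = ((z.natAbs : ℕ) : ℝ) := by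
      rw [← Int.cast_abs, Int.abs_eq_natAbs]
      simp
    rw [h5]
    exact h3

end Pool.Agent.Results.MP_5893d7_nt.UnitSumEuclid
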